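import Pool.Agent.H851Z.LR.KTriv

set_option autoImplicit false

namespace Pool.Agent.Results.MP_de6bcb_lc.AKTrivial

open MeasureTheory

/-- The characteristic function of the set with characteristic sequence `A`, as an oracle. -/
def chi (A : ℕ → Bool) : ℕ →. ℕ := fun n => Part.some (A n).toNat

/-- `W` is computably enumerable relative to `A`: the domain of a partial function that is
recursive in the characteristic function of `A`. -/
def CEIn (A : ℕ → Bool) (W : Set ℕ) : Prop :=
  ∃ f : ℕ →. ℕ, TuringReducible f (chi A) ∧ ∀ n, n ∈ W ↔ (f n).Dom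

/-- All infinite binary sequences extending the finite string `σ`. -/
def cyl (σ : List Bool) : Set (ℕ → Bool) := {X | ∀ (i : ℕ) (h : i < σ.length), X i = σ[i]}

/-- The uniform (fair coin, Lebesgue) measure on Cantor space. -/
noncomputable def lam : Measure (ℕ → Bool) :=
  Measure.infinitePi (fun _ : ℕ => (PMF.uniformOfFintype Bool).toMeasure)

/-- `U 0, U 1, ...` is a Martin-Lof test relative to `A`: open sets, uniformly c.e. relative to
`A`, the measure of `U n` being at most `2 ^ (-n)`. -/
def IsMLTest (A : ℕ → Bool) (U : ℕ → Set (ℕ → Bool)) : Prop :=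
  (∃ W : Set ℕ, CEIn A W ∧
    ∀ n, U n = ⋃ σ ∈ {σ : List Bool | Nat.pair n (Encodable.encode σ) ∈ W}, cyl σ) ∧
  ∀ n, lam (U n) ≤ (1 / 2) ^ n

/-- `X` is Martin-Lof random relative to `A`. -/
def RandomIn (A X : ℕ → Bool) : Prop :=
  ∀ U : ℕ → Set (ℕ → Bool), IsMLTest A U → X ∉ ⋂ n, U n

/-- `C ≤_LR D`: every `D`-random set is `C`-random. -/
def LRle (C D : ℕ → Bool) : Prop := ∀ X : ℕ → Bool, RandomIn D X → RandomIn C X

/-- The join `A ⊕ B = {2n : n ∈ A} ∪ {2n+1 : n ∈ B}`. -/
def join (A B : ℕ → Bool) : ℕ → Bool := fun n => if n % 2 = 0 then A (n / 2) else B (n / 2)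

/-- `M` is a prefix-free machine: a partial computable function from strings to strings with
prefix-free domain. -/
def IsMachine (M : List Bool →. List Bool) : Prop :=
  Partrec M ∧ ∀ σ τ : List Bool, (M σ).Dom → (M τ).Dom → σ <+: τ → σ = τ

/-- `U` is a universal (optimal) prefix-free machine. -/
def IsUniversal (U : List Bool →. List Bool) : Prop :=
  IsMachine U ∧ ∀ M : List Bool →. List Bool, IsMachine M → ∃ c : ℕ, ∀ τ y : List Bool,
    y ∈ M τ → ∃ τ' : List Bool, τ'.length ≤ τ.length + c ∧ y ∈ U τ'

/-- Prefix-free Kolmogorov complexity with respect to `U`. -/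
noncomputable def K (U : List Bool →. List Bool) (y : List Bool) : ℕ :=
  sInf {n | ∃ τ : List Bool, τ.length = n ∧ y ∈ U τ}

/-- If `A ⊕ B ≤_LR B` and `B` is `A`-random then `A` is K-trivial (for every universal
prefix-free machine and every computable one-one coding of numbers by strings). -/
theorem result (U : List Bool →. List Bool) (hU : IsUniversal U)
    (code : ℕ → List Bool) (hc : Computable code) (hi : Function.Injective code)
    (A B : ℕ → Bool) (hLR : LRle (join A B) B) (hB : RandomIn A B) :
    ∃ c : ℕ, ∀ n : ℕ, K U ((List.range n).map A) ≤ K U (code n) + c :=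
  Pool.Agent.H851Z.LR.main' hU hc hi hLR hB

end Pool.Agent.Results.MP_de6bcb_lc.AKTrivial
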